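import Pool.Agent.helper71.DSW.SpecC

/-! # Row `HAR` of project dsw: Harris' inequality for geometric variables -/

set_option autoImplicit false

namespace Pool.Agent.DSW

open Equiv Finset Function Pool.Agent.helper48.PP
open scoped ENNReal Classical

noncomputable section

theorem HAR_rearr (a b c d : ℝ≥0∞) (h1 : c ≤ a) (h2 : d ≤ b) : a * d + c * b ≤ a * b + c * d := by
  obtain ⟨u, rfl⟩ := le_iff_exists_add.1 h1
  obtain ⟨v, rfl⟩ := le_iff_exists_add.1 h2
  have e : (c + u) * (d + v) + c * d = ((c + u) * d + c * (d + v)) + u * v := by ring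
  rw [e]
  exact le_self_add

theorem HAR_rearr2 (f g : ℕ → ℝ≥0∞) (hf : Antitone f) (hg : Antitone g) (i j : ℕ) :
    f i * g j + f j * g i ≤ f i * g i + f j * g j := by
  rcases le_total i j with h | h
  · exact HAR_rearr _ _ _ _ (hf h) (hg h)
  · have := HAR_rearr _ _ _ _ (hf h) (hg h)
    rw [add_comm (f i * g j), add_comm (f i * g i)]
    exact this

theorem HAR_one (w f g : ℕ → ℝ≥0∞) (hw : ∑' j, w j = 1) (hf : Antitone f) (hg : Antitone g) :
    (∑' j, w j * f j) * (∑' j, w j * g j) ≤ ∑' j, w j * (f j * g j) := by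
  have h1 : ∑' i, ∑' j, (w i * w j) * (f i * g j + f j * g i) =
      2 * ((∑' j, w j * f j) * (∑' j, w j * g j)) := by
    have e1 : ∑' i, ∑' j, (w i * f i) * (w j * g j) = (∑' j, w j * f j) * (∑' j, w j * g j) := by
      simp_rw [ENNReal.tsum_mul_left, ENNReal.tsum_mul_right]
    have e2 : ∑' i, ∑' j, (w i * g i) * (w j * f j) = (∑' j, w j * f j) * (∑' j, w j * g j) := by
      simp_rw [ENNReal.tsum_mul_left, ENNReal.tsum_mul_right]
      rw [mul_comm]
    calc ∑' i, ∑' j, (w i * w j) * (f i * g j + f j * g i)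
        = ∑' i, ∑' j, ((w i * f i) * (w j * g j) + (w i * g i) * (w j * f j)) := by
          refine tsum_congr fun i => tsum_congr fun j => ?_
          ring
      _ = ∑' i, (∑' j, (w i * f i) * (w j * g j) + ∑' j, (w i * g i) * (w j * f j)) := by
          refine tsum_congr fun i => ?_
          rw [ENNReal.tsum_add]
      _ = ∑' i, ∑' j, (w i * f i) * (w j * g j) + ∑' i, ∑' j, (w i * g i) * (w j * f j) := by
          rw [ENNReal.tsum_add]
      _ = 2 * ((∑' j, w j * f j) * (∑' j, w j * g j)) := by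
          rw [e1, e2, two_mul]
  have h2 : ∑' i, ∑' j, (w i * w j) * (f i * g i + f j * g j) =
      2 * ∑' j, w j * (f j * g j) := by
    have e1 : ∑' i, ∑' j, (w i * (f i * g i)) * w j = ∑' j, w j * (f j * g j) := by
      simp_rw [ENNReal.tsum_mul_left, hw, mul_one]
    have e2 : ∑' i, ∑' j, w i * (w j * (f j * g j)) = ∑' j, w j * (f j * g j) := by
      simp_rw [ENNReal.tsum_mul_left, ENNReal.tsum_mul_right, hw, one_mul]
    calc ∑' i, ∑' j, (w i * w j) * (f i * g i + f j * g j)
        = ∑' i, ∑' j, ((w i * (f i * g i)) * w j + w i * (w j * (f j * g j))) := by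
          refine tsum_congr fun i => tsum_congr fun j => ?_
          ring
      _ = ∑' i, (∑' j, (w i * (f i * g i)) * w j + ∑' j, w i * (w j * (f j * g j))) := by
          refine tsum_congr fun i => ?_
          rw [ENNReal.tsum_add]
      _ = ∑' i, ∑' j, (w i * (f i * g i)) * w j + ∑' i, ∑' j, w i * (w j * (f j * g j)) := by
          rw [ENNReal.tsum_add]
      _ = 2 * ∑' j, w j * (f j * g j) := by
          rw [e1, e2, two_mul]
  have h3 : 2 * ((∑' j, w j * f j) * (∑' j, w j * g j)) ≤ 2 * ∑' j, w j * (f j * g j) := by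
    rw [← h1, ← h2]
    refine ENNReal.tsum_le_tsum fun i => ENNReal.tsum_le_tsum fun j => ?_
    exact mul_le_mul_right (HAR_rearr2 f g hf hg i j) _
  exact (ENNReal.mul_le_mul_iff_right (by norm_num) (by norm_num)).1 h3

theorem HAR_cons (w : ℕ → ℝ≥0∞) (n : ℕ) (f : (Fin (n + 1) → ℕ) → ℝ≥0∞) :
    ∑' x : Fin (n + 1) → ℕ, (∏ i, w (x i)) * f x =
      ∑' j : ℕ, w j * ∑' y : Fin n → ℕ, (∏ i, w (y i)) * f (Fin.cons j y : Fin (n + 1) → ℕ) := by
  rw [← (Fin.consEquiv (fun _ : Fin (n + 1) => ℕ)).tsum_eq, ENNReal.tsum_prod']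
  refine tsum_congr fun j => ?_
  rw [← ENNReal.tsum_mul_left]
  refine tsum_congr fun y => ?_
  rw [Fin.prod_univ_succ]
  simp only [Fin.consEquiv, Equiv.coe_fn_mk, Fin.cons_zero, Fin.cons_succ]
  rw [mul_assoc]

theorem HAR_fin (w : ℕ → ℝ≥0∞) (hw : ∑' j, w j = 1) (n : ℕ) :
    ∀ f g : (Fin n → ℕ) → ℝ≥0∞, Antitone f → Antitone g →
      (∑' x : Fin n → ℕ, (∏ i, w (x i)) * f x) * (∑' x : Fin n → ℕ, (∏ i, w (x i)) * g x) ≤
        ∑' x : Fin n → ℕ, (∏ i, w (x i)) * (f x * g x) := by
  induction n with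
  | zero =>
    intro f g _ _
    rw [tsum_fintype, tsum_fintype, tsum_fintype]
    simp
  | succ n ih =>
    intro f g hf hg
    rw [HAR_cons w n f, HAR_cons w n g, HAR_cons w n (fun x => f x * g x)]
    have hmono : ∀ (j : ℕ), Monotone (fun y : Fin n → ℕ => (Fin.cons j y : Fin (n + 1) → ℕ)) := by
      intro j y z h i
      refine Fin.cases ?_ (fun i => ?_) i
      · exact le_rfl
      · exact h i
    have hmono2 : ∀ (y : Fin n → ℕ), Monotone (fun j : ℕ => (Fin.cons j y : Fin (n + 1) → ℕ)) := by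
      intro y j k h i
      refine Fin.cases ?_ (fun i => ?_) i
      · exact h
      · exact le_rfl
    have ha : ∀ F : (Fin (n + 1) → ℕ) → ℝ≥0∞, Antitone F → Antitone (fun j : ℕ =>
        ∑' y : Fin n → ℕ, (∏ i, w (y i)) * F (Fin.cons j y : Fin (n + 1) → ℕ)) := by
      intro F hF j k hjk
      refine ENNReal.tsum_le_tsum fun y => ?_
      exact mul_le_mul_right (hF (hmono2 y hjk)) _
    refine (HAR_one w _ _ hw (ha f hf) (ha g hg)).trans ?_
    refine ENNReal.tsum_le_tsum fun j => ?_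
    refine mul_le_mul_right ?_ _
    exact ih (fun y => f (Fin.cons j y : Fin (n + 1) → ℕ)) (fun y => g (Fin.cons j y : Fin (n + 1) → ℕ))
      (fun y z h => hf (hmono j h)) (fun y z h => hg (hmono j h))

theorem HAR_trans {ι : Type} [Fintype ι] (H n : ℕ) (e : ι ≃ Fin n) (f : (ι → ℕ) → ℝ≥0∞) :
    Ex H f = ∑' y : Fin n → ℕ, (∏ i, wt H (y i)) * f (fun i => y (e i)) := by
  unfold Ex
  rw [← (Equiv.arrowCongr e.symm (Equiv.refl ℕ)).tsum_eq]
  refine tsum_congr fun y => ?_
  have h1 : (Equiv.arrowCongr e.symm (Equiv.refl ℕ)) y = fun i => y (e i) := by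
    ext i
    rfl
  rw [h1]
  congr 1
  exact Equiv.prod_comp e (fun i => wt H (y i))

theorem HAR_two (hGEO : GEO_stmt) {ι : Type} [Fintype ι] (H : ℕ) (hH : 1 ≤ H)
    (f g : (ι → ℕ) → ℝ≥0∞) (hf : Antitone f) (hg : Antitone g) :
    Ex H f * Ex H g ≤ Ex H fun x => f x * g x := by
  have e := Fintype.equivFin ι
  rw [HAR_trans H _ e f, HAR_trans H _ e g, HAR_trans H _ e (fun x => f x * g x)]
  refine HAR_fin (wt H) (hGEO H hH).1 _ _ _ ?_ ?_
  · intro y z h
    exact hf fun i => h (e i)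
  · intro y z h
    exact hg fun i => h (e i)

theorem HAR (hGEO : GEO_stmt) : HAR_stmt := by
  intro ι _ H hH
  refine ⟨fun f g hf hg => HAR_two hGEO H hH f g hf hg, ?_⟩
  intro κ K f hf
  have key : ∀ K' : Finset κ, K' ⊆ K → Antitone (fun x : ι → ℕ => ∏ k ∈ K', f k x) ∧
      ∏ k ∈ K', Ex H (f k) ≤ Ex H fun x => ∏ k ∈ K', f k x := by
    intro K'
    induction K' using Finset.induction_on with
    | empty =>
      intro _
      refine ⟨fun _ _ _ => le_rfl, ?_⟩
      simp only [Finset.prod_empty]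
      have h1 : Ex (ι := ι) H (fun _ => 1) = 1 := by
        rw [HAR_trans H _ (Fintype.equivFin ι)]
        have : ∀ n : ℕ, ∑' y : Fin n → ℕ, (∏ i, wt H (y i)) * (1 : ℝ≥0∞) = 1 := by
          intro n
          induction n with
          | zero =>
            rw [tsum_fintype]
            simp
          | succ n ih =>
            rw [HAR_cons (wt H) n (fun _ => 1)]
            simp_rw [ih, mul_one]
            exact (hGEO H hH).1
        exact this _
      rw [h1]
    | insert a s ha ih =>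
      intro hs
      have hs' : s ⊆ K := fun x hx => hs (Finset.mem_insert_of_mem hx)
      obtain ⟨h1, h2⟩ := ih hs'
      have hfa : Antitone (f a) := hf a (hs (Finset.mem_insert_self a s))
      simp_rw [Finset.prod_insert ha]
      refine ⟨fun x y h => mul_le_mul' (hfa h) (h1 h), ?_⟩
      calc Ex H (f a) * ∏ k ∈ s, Ex H (f k) ≤ Ex H (f a) * Ex H (fun x => ∏ k ∈ s, f k x) :=
            mul_le_mul_right h2 _
        _ ≤ Ex H fun x => f a x * ∏ k ∈ s, f k x := HAR_two hGEO H hH _ _ hfa h1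
  exact (key K (Finset.Subset.refl K)).2

end

end Pool.Agent.DSW
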